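import Pool.Agent.H50.ODG.Targets

/-! Row KNS of odg_modules -/

set_option autoImplicit false

namespace Pool.Agent.H38.ODG

open Pool.Agent.H50.ODG

theorem pf_KNS : T_KNS := by
  intro u v w h
  obtain ⟨h0, h⟩ := h
  refine ⟨⟨?_, ?_⟩, ⟨?_, ?_⟩⟩
  · linarith
  · tauto
  · linarith
  · tauto

end Pool.Agent.H38.ODG
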