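import Pool.Agent.H50.ODG.Targets

/-! Row NC2 of odg_modules -/

set_option autoImplicit false

namespace Pool.Agent.H38.ODG

open Pool.Agent.H57.CP Pool.Agent.H39.TO Pool.Agent.H39.OD Pool.Agent.H50.ODG

theorem pf_NC2 (hNC1 : T_NC1) (hMDR : T_MDR) (hCJA : T_CJA) (hMDQ : T_MDQ) (hEXE : T_EXE)
    (hEXF : T_EXF) (hGGL : T_GGL) (hKSY : T_KSY) (hSYC : T_SYC) (hFM2 : T_FM2) (hRFX : T_RFX)
    (hFMB : T_FMB) : T_NC2 := by
  intro K hK
  obtain ⟨u, v, w, x, x', n0, n1, n2, hCf, hKeq, hu0, hu1, hv0, hv1, hw0, hw1, hsum, hfam, hNoO,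
    hns⟩ := hNC1 K hK
  obtain ⟨α, β, g, G, ha0, ha1, hb0, hb1, hL, hg, hExt, hLor, hgo, hgx, hGa, hGb, hGm⟩ :=
    hMDR u v w x x' n0 n1 n2 hu0 hu1 hv0 hv1 hCf
  obtain ⟨hcf, -, -, -, -, hInS⟩ := hMDQ u v w α β hu0 hu1 hv0 hv1 ha0 ha1 hb0 hb1 hL
  have hmap : mapG g (ModD u v w α β) = K := by
    have h1 := hCJA g G o (x1 u v w α β) (na u α) (nb u v w α β) m1 hg hExt hLor hcf.u0 hcf.u1
      hcf.u2
    rw [hgo, hgx, hGa, hGb, hGm, ← hKeq] at h1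
    exact h1
  have hcong : Cong (ModD u v w α β) K := ⟨g, hg, hmap.symm⟩
  have hEX : EX u v w → α ≠ β := by
    intro hex hab
    obtain ⟨r, s, t, hrst⟩ := hInS.2 hab
    have hI : InS x x' n0 n1 n2 := by
      refine ⟨r, s, t, ?_⟩
      have h1 : G (o.1 - (x1 u v w α β).1) = x.1 - x'.1 := by
        rw [map_sub, hExt, hExt, hgo, hgx]
      rw [← h1, hrst, map_add, map_add, map_smul, map_smul, map_smul, hGa, hGb, hGm]
    obtain ⟨h, hh, hhx⟩ := hex x x' n0 n1 n2 hCf hNoO hI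
    obtain ⟨g', hg', hE'⟩ := (hGGL n0 n1 n2 hCf.u0 hCf.u1 hCf.u2).2.1 h hh
    apply hns
    refine ⟨g', ?_, ?_⟩
    · rw [hKeq]
      exact hKSY x x' (rf n0) (rf n1) (rf n2) (hRFX n0 hCf.u0).2.1 (hRFX n1 hCf.u1).2.1
        (hRFX n2 hCf.u2).2.1 g' hg'
    · apply Subtype.ext
      rw [← hE' x, hhx]
  refine ⟨u, v, w, α, β, ⟨hsum, ha0, ha1, hb0, hb1, ?_⟩, hcong⟩
  rcases hfam with h | h | h
  · exact Or.inl h
  · refine Or.inr (Or.inl ⟨h, hEX ?_⟩)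
    rcases h with ⟨p, hp, h7, h | h | h⟩ | h
    · obtain ⟨rfl, rfl, rfl⟩ := h
      exact (hEXE p hp h7).1
    · obtain ⟨rfl, rfl, rfl⟩ := h
      exact (hEXE p hp h7).2.1
    · obtain ⟨h3, rfl, rfl, rfl⟩ := h
      exact (hEXE p hp h7).2.2 h3
    · obtain ⟨rfl, rfl, rfl⟩ := h
      exact hEXF
  · have huv : u = v := (hFMB u v w (Or.inr (Or.inr h))).2.2.2.2.2.2.2.2 h
    subst huv
    have hno : ¬ (α = β ∨ α + β = Real.pi) := by
      intro hab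
      obtain ⟨g0, hS, hx⟩ := hFM2 u w α β hL hab
      have h1 := hSYC (ModD u u w α β) g0 g hS hg
      rw [hmap] at h1
      apply hns
      refine ⟨g * g0 * g⁻¹, h1, ?_⟩
      have h2 : g⁻¹ x = o := by
        rw [← hgo]
        exact g.symm_apply_apply o
      rw [Equiv.Perm.mul_apply, Equiv.Perm.mul_apply, h2, hx, hgx]
    exact Or.inr (Or.inr ⟨h, fun h1 => hno (Or.inl h1), fun h1 => hno (Or.inr h1)⟩)

end Pool.Agent.H38.ODG
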